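import Pool.Agent.N794.CG.Apps2
import Pool.Agent.R459.Eq18

/-!
# Lang–Trotter counts for the fibres of several elliptic surfaces at the members of automatic sets and at random integers whose
# blocks of digits can be exchanged

Let `E_{i, n} : y² = x³ + f_i(n) x + g_i(n)`, `i < m`, be the fibres at `n` of any `m` elliptic surfaces with polynomials
`f_i, g_i` with integer coefficients. Here `n` runs through an arbitrary automatic set of more than polylogarithmic size (such sets
may have as few as `N ^ c` elements below `N`, with arbitrarily small `c > 0`), or `n` is a random integer whose blocks of digits can be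
exchanged.

Definitions used: in `Pool.Agent.W263.BSD` (file `Pool/Agent/W263/BSD/Defs.lean`): `pointCount a n p` is the number of the solutions
of `y² = x³ + a x + n` modulo `p`, `GoodPrime a n p`: `p` is a prime which does not divide `2 (4 a³ + 27 n²)`. From Mathlib: `DFA`:
deterministic automata; `Nat.digits`: the digits, the least significant first.

Method: the exponential sums over the members of these families have the decay which is needed for the passage to sums over primes of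
functions of residues (starting files `Pool.Agent.N625.PT`, `Pool.Agent.H491R4.AF2`, `Pool.Agent.R459.Eq`, `Pool.Agent.N794.CG`).
-/

set_option autoImplicit false

namespace Pool.Agent.Results.MP_d74fca_nt.AutomaticSurfaces

open Finset Filter Pool.Agent.R459.Eq Pool.Agent.N794.CG
open Pool.Agent.W263.BSD (GoodPrime pointCount)

/-- `p` is a prime of good reduction of all the curves `y² = x³ + f_i(n) x + g_i(n)`, and their traces of Frobenius
`a_p = p - N_p` are `r_i`. -/
def Traces {m : ℕ} (f g : Fin m → Polynomial ℤ) (r : Fin m → ℤ) (p : ℕ) (n : ℤ) : Prop :=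
  ∀ i, GoodPrime ((f i).eval n) ((g i).eval n) p ∧ (p : ℤ) - pointCount ((f i).eval n) ((g i).eval n) p = r i

open Classical in
/-- The number of the primes `p ≤ x` in `T` at which all the `y² = x³ + f_i(n) x + g_i(n)` have good reduction and the traces
`r_i`. -/
noncomputable def count {m : ℕ} (f g : Fin m → Polynomial ℤ) (T : Set ℕ) (r : Fin m → ℤ) (n : ℤ) (x : ℕ) : ℕ :=
  ((range (x + 1)).filter (fun p => p.Prime ∧ p ∈ T ∧ Traces f g r p n)).card

open Classical in
/-- The sum over the primes `p ≤ x` in `T` of the proportion of the residues `t` modulo `p` for which all the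
`y² = x³ + f_i(t) x + g_i(t)` have good reduction at `p` and the traces `r_i`. -/
noncomputable def model {m : ℕ} (f g : Fin m → Polynomial ℤ) (T : Set ℕ) (r : Fin m → ℤ) (x : ℕ) : ℝ :=
  ∑ p ∈ (range (x + 1)).filter (fun p => p.Prime ∧ p ∈ T), (((range p).filter (fun t : ℕ => Traces f g r p t)).card : ℝ) / p

section codes

/-- a code of an integer -/
def ec (z : ℤ) : ℕ := 2 * z.natAbs + if z < 0 then 1 else 0

lemma ec_inj {z z' : ℤ} (h : ec z = ec z') : z = z' := by
  unfold ec at h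
  split_ifs at h <;> omega

lemma ec_le (z : ℤ) : ec z ≤ 2 * z.natAbs + 1 := by
  unfold ec
  split_ifs <;> omega

/-- a code of a list -/
def encN : List ℕ → ℕ
  | [] => 0
  | a :: l => Nat.pair a (encN l)

lemma encN_inj : ∀ (l l' : List ℕ), l.length = l'.length → encN l = encN l' → l = l' := by
  intro l
  induction l with
  | nil =>
    intro l' h _
    cases l' with
    | nil => rfl
    | cons a l' => simp at h
  | cons a l ih =>
    intro l' h h'
    cases l' with
    | nil => simp at h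
    | cons a' l' =>
      have h1 := Nat.pair_eq_pair.1 h'
      rw [h1.1, ih l' (by simpa using h) h1.2]

lemma encN_le (R : ℕ) : ∀ l : List ℕ, (∀ a ∈ l, a ≤ R) → encN l + 1 ≤ (R + 1) ^ (2 ^ l.length) := by
  intro l
  induction l with
  | nil =>
    intro _
    simp [encN]
  | cons a l ih =>
    intro h
    have h1 := ih fun a' ha' => h a' (List.mem_cons_of_mem _ ha')
    have h2 := h a List.mem_cons_self
    have h3 := Nat.pair_lt_max_add_one_sq a (encN l)
    have h4 : max a (encN l) + 1 ≤ (R + 1) ^ (2 ^ l.length) := by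
      have h5 : R + 1 ≤ (R + 1) ^ (2 ^ l.length) := Nat.le_self_pow (by positivity) _
      rcases le_total a (encN l) with h6 | h6
      · rw [max_eq_right h6]
        exact h1
      · rw [max_eq_left h6]
        omega
    have h7 := Nat.pow_le_pow_left h4 2
    rw [← pow_mul, ← pow_succ] at h7
    show Nat.pair a (encN l) + 1 ≤ _
    rw [List.length_cons]
    omega

/-- the code of a vector of integers and an index -/
def code {m : ℕ} (j : ℕ) (r : Fin m → ℤ) : ℕ := encN (j :: List.ofFn (fun i => ec (r i)))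

lemma code_inj {m : ℕ} {j j' : ℕ} {r r' : Fin m → ℤ} (h : code j r = code j' r') : j = j' ∧ r = r' := by
  unfold code at h
  have h1 := encN_inj _ _ (by simp) h
  rw [List.cons.injEq] at h1
  refine ⟨h1.1, ?_⟩
  have h2 := List.ofFn_injective h1.2
  funext i
  exact ec_inj (congrFun h2 i)

lemma code_le {m : ℕ} {j R : ℕ} {r : Fin m → ℤ} (hj : j ≤ R) (hr : ∀ i, (r i).natAbs ≤ R) :
    code j r + 1 ≤ (2 * R + 2) ^ (2 ^ (m + 1)) := by
  unfold code
  have h := encN_le (2 * R + 1) (j :: List.ofFn (fun i => ec (r i))) (by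
    intro a ha
    rw [List.mem_cons] at ha
    rcases ha with rfl | ha
    · omega
    · rw [List.mem_ofFn] at ha
      obtain ⟨i, rfl⟩ := ha
      have h1 := ec_le (r i)
      have h2 := hr i
      omega)
  rw [List.length_cons, List.length_ofFn] at h
  exact h

end codes

lemma traces_per {m : ℕ} (f g : Fin m → Polynomial ℤ) (r : Fin m → ℤ) (p : ℕ) {n n' : ℤ} (h : (p : ℤ) ∣ n - n') :
    Traces f g r p n ↔ Traces f g r p n' := by
  have key : ∀ F : Polynomial ℤ, ((F.eval n : ℤ) : ZMod p) = ((F.eval n' : ℤ) : ZMod p) := by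
    intro F
    rw [← sub_eq_zero, ← Int.cast_sub, ZMod.intCast_zmod_eq_zero_iff_dvd]
    exact h.trans (Polynomial.sub_dvd_eval_sub n n' F)
  unfold Traces
  apply forall_congr'
  intro i
  have h1 : GoodPrime ((f i).eval n) ((g i).eval n) p ↔ GoodPrime ((f i).eval n') ((g i).eval n') p := by
    unfold GoodPrime
    rw [← ZMod.intCast_zmod_eq_zero_iff_dvd, ← ZMod.intCast_zmod_eq_zero_iff_dvd]
    push_cast
    rw [key (f i), key (g i)]
  have h2 : pointCount ((f i).eval n) ((g i).eval n) p = pointCount ((f i).eval n') ((g i).eval n') p := by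
    unfold pointCount
    rw [key (f i), key (g i)]
  rw [h1, h2]

lemma filter_pri (x : ℕ) (Q : ℕ → Prop) [DecidablePred (fun p => p.Prime ∧ Q p)] [DecidablePred Q] :
    (range (x + 1)).filter (fun p => p.Prime ∧ Q p) = (pri x).filter Q := by
  ext p
  simp only [mem_filter, mem_range, mem_pri]
  constructor
  · rintro ⟨h1, h2, h3⟩
    exact ⟨⟨by omega, h2⟩, h3⟩
  · rintro ⟨⟨h1, h2⟩, h3⟩
    exact ⟨by omega, h2, h3⟩


open Classical in
/-- from the one-dimensional statement to the counts -/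
theorem surf_of (δ : ℝ) (hδ : 0 < δ) (m : ℕ) : ∃ X₁ : ℕ, ∀ X : ℕ, X₁ ≤ X → ∀ (ι : Type) (Ω : Finset ι) (w : ι → ℝ) (v : ι → ℤ)
    (R₀ : ℕ → Prop) (τ : ℝ), FineAt δ X R₀ τ Ω w v → ∀ f g : Fin m → Polynomial ℤ, ∀ T : ℕ → Set ℕ,
    (∀ p j j', p ∈ T j → p ∈ T j' → j = j') →
    Mostly Ω w v τ (fun n => ∀ x : ℕ, X ≤ x → R₀ x → ∀ j : ℕ, (j : ℝ) ≤ (x : ℝ) ^ (δ / 2 ^ (m + 3)) →
      ∀ r : Fin m → ℤ, (∀ i, (|r i| : ℝ) ≤ (x : ℝ) ^ (δ / 2 ^ (m + 3))) →
        |(count f g (T j) r n x : ℝ) - model f g (T j) r x| ≤ √(max 1 (model f g (T j) r (2 * x))) * (x : ℝ) ^ δ) := by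
  obtain ⟨X₁, hX₁⟩ : ∃ X₁ : ℕ, ∀ x : ℕ, X₁ ≤ x → (4 : ℝ) ^ (2 ^ (m + 1)) ≤ (x : ℝ) ^ (δ / 4) := by
    have h1 := ((tendsto_rpow_atTop (show 0 < δ / 4 by positivity)).comp tendsto_natCast_atTop_atTop).eventually_ge_atTop
      ((4 : ℝ) ^ (2 ^ (m + 1)))
    obtain ⟨X₁, hX₁⟩ := Filter.eventually_atTop.1 h1
    exact ⟨X₁, hX₁⟩
  refine ⟨X₁ + 1, fun X hX ι Ω w v R₀ τ H f g T hT => ?_⟩
  -- the indicator functions
  obtain ⟨G, hG⟩ : ∃ G : ℕ → ℕ → ℤ → ℝ, G = fun J p n =>
    if ∃ (j : ℕ) (r : Fin m → ℤ), code j r = J ∧ p ∈ T j ∧ Traces f g r p n then 1 else 0 := ⟨_, rfl⟩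
  have hGval : ∀ (j : ℕ) (r : Fin m → ℤ) (p : ℕ) (n : ℤ), G (code j r) p n = if p ∈ T j ∧ Traces f g r p n then 1 else 0 := by
    intro j r p n
    rw [hG]
    simp only
    congr 1
    rw [eq_iff_iff]
    constructor
    · rintro ⟨j', r', h, h1, h2⟩
      obtain ⟨rfl, rfl⟩ := code_inj h
      exact ⟨h1, h2⟩
    · rintro ⟨h1, h2⟩
      exact ⟨j, r, rfl, h1, h2⟩
  have hG1 : ∀ J, Sysb (G J) := by
    intro J
    constructor
    · intro p hp n n' h
      rw [hG]
      simp only
      congr 1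
      rw [eq_iff_iff]
      apply exists_congr
      intro j
      apply exists_congr
      intro r
      rw [traces_per f g r p h]
    · intro p _ n
      rw [hG]
      simp only
      split_ifs <;> norm_num
  have hG2 : Few G := by
    intro p hp n M
    have h2 : ∑ J ∈ range M, (G J p n) ^ 2 ≤ 1 := by
      have e : ∀ J, (G J p n) ^ 2 = if ∃ (j : ℕ) (r : Fin m → ℤ), code j r = J ∧ p ∈ T j ∧ Traces f g r p n then 1 else 0 := by
        intro J
        rw [hG]
        simp only
        split_ifs <;> norm_num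
      simp only [e]
      rw [sum_boole]
      have h3 : ((range M).filter (fun J => ∃ (j : ℕ) (r : Fin m → ℤ), code j r = J ∧ p ∈ T j ∧ Traces f g r p n)).card ≤ 1 := by
        rw [card_le_one]
        intro J hJ J' hJ'
        obtain ⟨j, r, h4, h5, h6⟩ := (mem_filter.1 hJ).2
        obtain ⟨j', r', h4', h5', h6'⟩ := (mem_filter.1 hJ').2
        have h7 := hT p j j' h5 h5'
        have h8 : r = r' := by
          funext i
          rw [← (h6 i).2, ← (h6' i).2]
        rw [← h4, ← h4', h7, h8]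
      exact_mod_cast h3
    have h3 : (0 : ℝ) ≤ Nat.log 2 p := Nat.cast_nonneg _
    linarith
  refine (H ⟨G, hG1, hG2⟩).mono ?_
  intro n hn x hXx hxW j hj r hr
  have hx1 : 1 ≤ x := by omega
  have hxr : (1 : ℝ) ≤ x := by exact_mod_cast hx1
  obtain ⟨θ, hθ⟩ : ∃ θ : ℝ, θ = δ / 2 ^ (m + 3) := ⟨_, rfl⟩
  rw [← hθ] at hj hr
  have hθ0 : 0 < θ := by rw [hθ]; positivity
  have hy1 : 1 ≤ (x : ℝ) ^ θ := Real.one_le_rpow hxr hθ0.le
  -- the size of the code
  have hcode : ((code j r : ℕ) : ℝ) ≤ (x : ℝ) ^ (δ / 2) := by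
    obtain ⟨R, hR⟩ : ∃ R : ℕ, R = ⌊(x : ℝ) ^ θ⌋₊ := ⟨_, rfl⟩
    have hRle : (R : ℝ) ≤ (x : ℝ) ^ θ := by
      rw [hR]
      exact Nat.floor_le (by positivity)
    have h2 : j ≤ R := by
      rw [hR]
      exact Nat.le_floor hj
    have h3 : ∀ i, (r i).natAbs ≤ R := by
      intro i
      rw [hR]
      apply Nat.le_floor
      have h4 := hr i
      rw [Nat.cast_natAbs]
      push_cast
      exact h4
    have h4 : ((code j r : ℕ) : ℝ) + 1 ≤ (2 * (R : ℝ) + 2) ^ (2 ^ (m + 1)) := by exact_mod_cast code_le h2 h3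
    have h5 : (2 * (R : ℝ) + 2) ^ (2 ^ (m + 1)) ≤ (4 * (x : ℝ) ^ θ) ^ (2 ^ (m + 1)) := by
      apply pow_le_pow_left₀ (by positivity)
      linarith
    have h6 : ((x : ℝ) ^ θ) ^ (2 ^ (m + 1)) = (x : ℝ) ^ (δ / 4) := by
      rw [← Real.rpow_natCast, ← Real.rpow_mul (by linarith), hθ]
      congr 1
      push_cast
      rw [pow_add (2 : ℝ) m 3, pow_add (2 : ℝ) m 1]
      field_simp
      norm_num
    rw [mul_pow, h6] at h5
    have h7 : (4 : ℝ) ^ (2 ^ (m + 1)) * (x : ℝ) ^ (δ / 4) ≤ (x : ℝ) ^ (δ / 4) * (x : ℝ) ^ (δ / 4) :=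
      mul_le_mul_of_nonneg_right (hX₁ x (by omega)) (by positivity)
    have h8 : (x : ℝ) ^ (δ / 4) * (x : ℝ) ^ (δ / 4) = (x : ℝ) ^ (δ / 2) := by
      rw [← Real.rpow_add (by linarith)]
      congr 1
      ring
    linarith
  have h2 := (hn x hXx hxW).2 (code j r) hcode
  have hmean : ∀ p, mean p (G (code j r) p) = if p ∈ T j then (((range p).filter (fun t : ℕ => Traces f g r p t)).card : ℝ) / p else 0 := by
    intro p
    unfold mean
    simp only [hGval]
    by_cases h : p ∈ T j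
    · rw [if_pos h]
      simp only [h, true_and]
      rw [sum_boole]
    · rw [if_neg h]
      simp only [h, false_and, if_false]
      simp
  have hmodel : ∀ y : ℕ, ∑ p ∈ pri y, mean p (G (code j r) p) = model f g (T j) r y := by
    intro y
    unfold model
    rw [filter_pri y (fun p => p ∈ T j), sum_filter]
    exact sum_congr rfl fun p _ => hmean p
  have hVs : Vs (G (code j r)) (2 * x) ≤ model f g (T j) r (2 * x) := by
    rw [← hmodel]
    unfold Vs
    apply sum_le_sum
    intro p _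
    unfold mean
    apply le_of_eq
    congr 1
    apply sum_congr rfl
    intro t _
    show (G (code j r) p (t : ℤ)) ^ 2 = G (code j r) p (t : ℤ)
    rw [hGval]
    split_ifs <;> norm_num
  have hcount : ∑ p ∈ pri x, G (code j r) p n = (count f g (T j) r n x : ℝ) := by
    unfold count
    rw [filter_pri x (fun p => p ∈ T j ∧ Traces f g r p n)]
    simp only [hGval]
    rw [sum_boole]
  rw [sum_sub_distrib, hcount, hmodel] at h2
  refine h2.trans ?_
  apply mul_le_mul_of_nonneg_right _ (by positivity)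
  exact Real.sqrt_le_sqrt (max_le_max le_rfl hVs)


open Classical in
/-- The integers `0 ≤ v < N` whose digits in base `b` (the least significant first) are accepted by the finite automaton `M`. -/
noncomputable def accepted {σ : Type} (b : ℕ) (M : DFA ℕ σ) (N : ℕ) : Finset ℕ :=
  (range N).filter (fun v => Nat.digits b v ∈ M.accepts)

lemma accepted_eq {σ : Type} (b : ℕ) (M : DFA ℕ σ) (N : ℕ) : accepted b M N = Pool.Agent.N794.CG.mem b M N := by
  unfold accepted Pool.Agent.N794.CG.mem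
  congr!

/-- The probability, for the distribution `μ` on the words of `k` digits (the integers `v < b ^ k`), that the word begins with
the `i` digits of `u < b ^ i`. -/
noncomputable def begins (b k : ℕ) (μ : ℕ → ℝ) (i u : ℕ) : ℝ := ∑ w ∈ range (b ^ (k - i)), μ (u * b ^ (k - i) + w)

/-- `p` is a probability on the words of `k` digits in base `b`, read as integers `v < b ^ k`. There is another probability
`μ` with `p ≤ k ^ T μ` such that after every beginning `u` two different blocks `a`, `a'` of `L` digits can be exchanged: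
`p (u a w) = r p (u a' w)` for all endings `w`, with a factor `r` between `η` and `1 / η` which does not depend on `w`; and
given the beginning `u`, each of the two blocks comes next with a probability of at least `η` in the distribution `μ`.
(For `T = 0` one has `μ = p`. For the uniform distribution on a set of words `r` is `1`.) -/
structure Exchangeable (b L : ℕ) (η : ℝ) (T k : ℕ) (p : ℕ → ℝ) : Prop where
  nonneg : ∀ v, 0 ≤ p v
  sum : ∑ v ∈ range (b ^ k), p v = 1
  dominated : ∃ μ : ℕ → ℝ, (∀ v, 0 ≤ μ v) ∧ ∑ v ∈ range (b ^ k), μ v = 1 ∧ (∀ v < b ^ k, p v ≤ (k : ℝ) ^ T * μ v) ∧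
    ∀ i u : ℕ, i + L ≤ k → u < b ^ i → ∃ (a a' : ℕ) (r : ℝ), a < a' ∧ a' < b ^ L ∧ η ≤ r ∧ η * r ≤ 1 ∧
      (∀ w < b ^ (k - (i + L)), p ((b ^ L * u + a) * b ^ (k - (i + L)) + w) = r * p ((b ^ L * u + a') * b ^ (k - (i + L)) + w)) ∧
      η * begins b k μ i u ≤ begins b k μ (i + L) (b ^ L * u + a) ∧
      η * begins b k μ i u ≤ begins b k μ (i + L) (b ^ L * u + a')

lemma begins_sum (b k : ℕ) (μ : ℕ → ℝ) (i u : ℕ) (hi : i < k) :
    ∑ a ∈ range b, begins b k μ (i + 1) (b * u + a) = begins b k μ i u := by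
  unfold begins
  obtain ⟨n, hn⟩ : ∃ n, k - i = n + 1 := ⟨k - i - 1, by omega⟩
  have h1 : k - (i + 1) = n := by omega
  rw [h1, hn, pow_succ, mul_comm (b ^ n) b, Pool.Agent.N625.PT.sum_blocks b (b ^ n)]
  apply sum_congr rfl
  intro a _
  apply sum_congr rfl
  intro w _
  congr 1
  ring

lemma flex_of {b L T k : ℕ} {η : ℝ} {p : ℕ → ℝ} (hp : Exchangeable b L η T k p) : Pool.Agent.N625.PT.Flex b L η T k p := by
  obtain ⟨h0, h1, μ, m0, m1, m2, m3⟩ := hp
  have hT : (0 : ℝ) ≤ (k : ℝ) ^ T := by positivity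
  have hb0 : ∀ i u, 0 ≤ begins b k μ i u := fun i u => sum_nonneg fun w _ => m0 _
  refine ⟨h0, h1, fun i u => (k : ℝ) ^ T * begins b k μ i u, fun i u => mul_nonneg hT (hb0 i u), ?_, ?_, ?_, ?_⟩
  · intro v hv
    refine (m2 v hv).trans (le_of_eq ?_)
    unfold begins
    simp
  · intro i hi u _
    simp only
    rw [← mul_sum, begins_sum b k μ i u hi]
  · simp only
    have : begins b k μ 0 0 = 1 := by
      unfold begins
      simpa using m1
    rw [this, mul_one]
  · intro i u hi hu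
    obtain ⟨a, a', r, q1, q2, q3, q4, q5, q6, q7⟩ := m3 i u hi hu
    refine ⟨a, a', r, q1, q2, q3, q4, q5, ?_, ?_⟩
    · simp only
      calc η * ((k : ℝ) ^ T * begins b k μ i u) = (k : ℝ) ^ T * (η * begins b k μ i u) := by ring
        _ ≤ _ := mul_le_mul_of_nonneg_left q6 hT
    · simp only
      calc η * ((k : ℝ) ^ T * begins b k μ i u) = (k : ℝ) ^ T * (η * begins b k μ i u) := by ring
        _ ≤ _ := mul_le_mul_of_nonneg_left q7 hT

open Classical in
/-- Let `0 < δ ≤ 1 / 2`. Let `f_i`, `g_i` (`i < m`) be any polynomials with integer coefficients, and let `T_0, T_1, ...` be any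
pairwise disjoint sets of primes. Say that an integer `n` is good for `X` and a set of real numbers `x` if for ALL `x ≥ X` in this
set, ALL `j ≤ x ^ θ` and ALL integers `|r_i| ≤ x ^ θ`, `θ = δ / 2 ^ (m + 3)`: with `S` the sum over the primes `p ≤ x` in `T_j` of the
proportion of the residues `t` modulo `p` such that the curves `y² = x³ + f_i(t) x + g_i(t)` have good reduction and the traces `r_i`
at `p`, and `S'` the same sum over `p ≤ 2 x`, the number of the primes `p ≤ x` in `T_j` at which the curves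
`y² = x³ + f_i(n) x + g_i(n)` have good reduction and the traces `r_i` differs from `S` by at most `(max 1 S') ^ (1 / 2) x ^ δ`.

**(1) Automatic sets.** Let `A` be the set of the integers `v ≥ 0` whose digits in base `b ≥ 2` are accepted by a finite automaton
`M`, and suppose that `A` has more than polylogarithmic size: for every `k` there are infinitely many `N` such that more than
`(log N) ^ k` elements of `A` are smaller than `N`. There are `W` and `e` such that for all `κ ≠ 0` and `m`, all sufficiently large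
`X`, all `N`, `c`, `f`, `g` and `T`: all the members `v < N` of `A`, up to a proportion of at most
`2 (log N) ^ e X ^ (- δ / 2)`, are such that `n = c + κ v` is good for `X` and the `x` with `x ^ W ≤ N`.

**(2) Exchangeable digits.** Let `b ≥ 2`, `L ≥ 1`, `0 < η ≤ 1` and `T₀` be given. There is `W` such that for all `κ ≠ 0` and `m`,
all sufficiently large `X`, all numbers `k` of digits, all probabilities `P` on the words of `k` digits in which blocks of `L` digits
can be exchanged (`Exchangeable b L η T₀ k P`), all `c`, `f`, `g` and `T`: if `v` is a random integer with the distribution `P`, then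
the probability that `n = c + κ v` is not good for `X` and the `x` with `x ^ W ≤ b ^ k` is at most `2 k ^ T₀ X ^ (- δ / 2)`. -/
theorem result (δ : ℝ) (hδ : 0 < δ) (hδ1 : δ ≤ 1 / 2) :
    (∀ (σ : Type) [Fintype σ] (b : ℕ), 2 ≤ b → ∀ M : DFA ℕ σ,
      (∀ k : ℕ, ∃ᶠ N : ℕ in atTop, Real.log N ^ k < ((accepted b M N).card : ℝ)) →
      ∃ W e : ℕ, 1 ≤ W ∧ ∀ κ : ℤ, κ ≠ 0 → ∀ m : ℕ, ∃ X₀ : ℕ, ∀ X : ℕ, X₀ ≤ X → ∀ (N : ℕ) (c : ℤ),
      ∀ f g : Fin m → Polynomial ℤ, ∀ T : ℕ → Set ℕ, (∀ p j j', p ∈ T j → p ∈ T j' → j = j') →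
      (((accepted b M N).filter (fun v => ¬ ∀ x : ℕ, X ≤ x → x ^ W ≤ N →
        ∀ j : ℕ, (j : ℝ) ≤ (x : ℝ) ^ (δ / 2 ^ (m + 3)) →
        ∀ r : Fin m → ℤ, (∀ i, (|r i| : ℝ) ≤ (x : ℝ) ^ (δ / 2 ^ (m + 3))) →
          |(count f g (T j) r (c + κ * (v : ℕ)) x : ℝ) - model f g (T j) r x| ≤
            √(max 1 (model f g (T j) r (2 * x))) * (x : ℝ) ^ δ)).card : ℝ) ≤
      (2 * Real.log N ^ e * (X : ℝ) ^ (-(δ / 2))) * (accepted b M N).card) ∧
    (∀ b L : ℕ, 2 ≤ b → 1 ≤ L → ∀ η : ℝ, 0 < η → η ≤ 1 → ∀ T₀ : ℕ,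
      ∃ W : ℕ, 1 ≤ W ∧ ∀ κ : ℤ, κ ≠ 0 → ∀ m : ℕ, ∃ X₀ : ℕ, ∀ X : ℕ, X₀ ≤ X →
      ∀ (k : ℕ) (P : ℕ → ℝ), Exchangeable b L η T₀ k P → ∀ (c : ℤ),
      ∀ f g : Fin m → Polynomial ℤ, ∀ T : ℕ → Set ℕ, (∀ p j j', p ∈ T j → p ∈ T j' → j = j') →
      ∑ v ∈ range (b ^ k), (if ∀ x : ℕ, X ≤ x → x ^ W ≤ b ^ k →
        ∀ j : ℕ, (j : ℝ) ≤ (x : ℝ) ^ (δ / 2 ^ (m + 3)) →
        ∀ r : Fin m → ℤ, (∀ i, (|r i| : ℝ) ≤ (x : ℝ) ^ (δ / 2 ^ (m + 3))) →
          |(count f g (T j) r (c + κ * (v : ℕ)) x : ℝ) - model f g (T j) r x| ≤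
            √(max 1 (model f g (T j) r (2 * x))) * (x : ℝ) ^ δ then 0 else P v) ≤
      2 * (k : ℝ) ^ T₀ * (X : ℝ) ^ (-(δ / 2))) := by
  constructor
  · intro σ _ b hb M hM
    simp only [accepted_eq] at hM ⊢
    obtain ⟨W, e, hW, H⟩ := fineAt_aut δ hδ hδ1 b hb M hM
    refine ⟨W, e, hW, fun κ hκ m => ?_⟩
    obtain ⟨X₀, J⟩ := H κ hκ
    obtain ⟨X₁, J₁⟩ := surf_of δ hδ m
    refine ⟨X₀ + X₁, fun X hX N c f g T hT => ?_⟩
    have h1 := J₁ X (by omega) ℕ (mem b M N) (fun _ => 1 / ((mem b M N).card : ℝ)) (fun v => c + κ * (v : ℕ)) _ _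
      (J X (by omega) N c) f g T hT
    have h2 := h1 _ (filter_subset (fun v : ℕ => ¬ ∀ x : ℕ, X ≤ x → x ^ W ≤ N →
        ∀ j : ℕ, (j : ℝ) ≤ (x : ℝ) ^ (δ / 2 ^ (m + 3)) →
        ∀ r : Fin m → ℤ, (∀ i, (|r i| : ℝ) ≤ (x : ℝ) ^ (δ / 2 ^ (m + 3))) →
          |(count f g (T j) r (c + κ * (v : ℕ)) x : ℝ) - model f g (T j) r x| ≤
            √(max 1 (model f g (T j) r (2 * x))) * (x : ℝ) ^ δ) (mem b M N)) (fun i hi => (mem_filter.1 hi).2)
    rw [sum_const, nsmul_eq_mul] at h2
    rcases Nat.eq_zero_or_pos (mem b M N).card with h0 | h0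
    · rw [card_eq_zero.1 h0]
      simp
    · have h5 : (0 : ℝ) < (mem b M N).card := by exact_mod_cast h0
      rw [mul_one_div, div_le_iff₀ h5] at h2
      refine h2.trans (le_of_eq ?_)
      ring
  · intro b L hb hL η hη0 hη1 T₀
    obtain ⟨W, hW, H⟩ := fineAt_flex δ hδ hδ1 b L hb hL η hη0 hη1 T₀
    refine ⟨W, hW, fun κ hκ m => ?_⟩
    obtain ⟨X₀, J⟩ := H κ hκ
    obtain ⟨X₁, J₁⟩ := surf_of δ hδ m
    refine ⟨X₀ + X₁, fun X hX k P hP c f g T hT => ?_⟩
    have h1 := J₁ X (by omega) ℕ (range (b ^ k)) P (fun v => c + κ * (v : ℕ)) _ _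
      (J X (by omega) k P (flex_of hP) c) f g T hT
    have h2 := h1 _ (filter_subset (fun v : ℕ => ¬ ∀ x : ℕ, X ≤ x → x ^ W ≤ b ^ k →
        ∀ j : ℕ, (j : ℝ) ≤ (x : ℝ) ^ (δ / 2 ^ (m + 3)) →
        ∀ r : Fin m → ℤ, (∀ i, (|r i| : ℝ) ≤ (x : ℝ) ^ (δ / 2 ^ (m + 3))) →
          |(count f g (T j) r (c + κ * (v : ℕ)) x : ℝ) - model f g (T j) r x| ≤
            √(max 1 (model f g (T j) r (2 * x))) * (x : ℝ) ^ δ) (range (b ^ k))) (fun i hi => (mem_filter.1 hi).2)
    rw [sum_filter] at h2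
    refine le_trans (le_of_eq ?_) (h2.trans (le_of_eq (by ring)))
    apply sum_congr rfl
    intro v _
    rw [ite_not]

end Pool.Agent.Results.MP_d74fca_nt.AutomaticSurfaces
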