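import Pool.Agent.J6H22.LT.Main

/-!
# The Lang–Trotter formula for all curves with complex multiplication by orders of `ℚ(i)` and almost all traces

For every finite family of elliptic curves over `ℚ` with complex multiplication by an order of `ℚ(i)` (the curves
`y² = x³ + b x` and `y² = x³ - 6 d x² + d² x`), all signs `sᵢ` and every reduced class `c` modulo `q`, and for almost all `r`,
`|r| ≤ R`, the number of the primes `p ≤ x`, `p ≡ c (mod q)`, with `a_p(Eᵢ) = sᵢ r` for all `i` is given by the formula of Lang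
and Trotter, with an explicit constant, uniformly for `R ^ (2 + ε) ≤ x ≤ R ^ (3 - ε)`.

Proof: for a Gaussian prime `β` of norm `p` the trace of `y² = x³ - D x` is `2 s Re β` if and only if `s (D/β)₄ β` is `1` modulo
`2 + 2 i`; by quartic reciprocity this is a condition for `β` modulo `8 D`; and for almost all `l` the primes `l² + m²`,
`m ≤ M`, in a class modulo a fixed number are given by the expected formula (the starting library `Pool.Agent.N782.GN`).
-/

set_option autoImplicit false

namespace Pool.Agent.Results.MP_d74fca_nt.GaussianCurves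

open Finset Filter Topology

/-- The number of the solutions `(x, y)` of `y² = x³ + a x² + b x` modulo `p`, which is `|E(𝔽_p)| - 1`. -/
def points (a b : ℤ) (p : ℕ) : ℕ :=
  ((range p ×ˢ range p).filter (fun xy : ℕ × ℕ =>
    (p : ℤ) ∣ (xy.2 : ℤ) ^ 2 - ((xy.1 : ℤ) ^ 3 + a * (xy.1 : ℤ) ^ 2 + b * (xy.1 : ℤ)))).card

/-- The trace `a_p(E) = p + 1 - |E(𝔽_p)|` of the curve `E : y² = x³ + a x² + b x`. -/
def trace (a b : ℤ) (p : ℕ) : ℤ := (p : ℤ) - points a b p

/-- `y² = x³ + a x² + b x` is one of the curves `y² = x³ + b x`, `b ≠ 0` (`j = 1728`) and `y² = x³ - 6 d x² + d² x`, `d ≠ 0`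
(`j = 287496`), which are, up to isomorphism, the elliptic curves over `ℚ` with complex multiplication by an order of `ℚ(i)`. -/
def HasCM (a b : ℤ) : Prop := (a = 0 ∧ b ≠ 0) ∨ ∃ d : ℤ, d ≠ 0 ∧ a = -6 * d ∧ b = d ^ 2

/-- The number of the primes `p ≤ x`, `p ≠ 2`, which divide no `b i`, are congruent to `c` modulo `q`, and have
`a_p(E_i) = s_i r` for all the curves `E_i : y² = x³ + a_i x² + b_i x`. -/
noncomputable def count {ι : Type} [Fintype ι] (a b s : ι → ℤ) (q c : ℕ) (r : ℤ) (x : ℝ) : ℕ :=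
  ((Icc 1 ⌊x⌋₊).filter (fun p : ℕ => p.Prime ∧ p ≠ 2 ∧ (∀ i, ¬ (p : ℤ) ∣ b i) ∧ p ≡ c [MOD q] ∧
    ∀ i, trace (a i) (b i) p = s i * r)).card

open Classical in
/-- The quartic residue symbol `(a/π)₄` of a Gaussian prime `π`: `0` if `π ∣ a`, and otherwise the number `u` among
`1, i, -1, -i` with `a ^ ((N π - 1) / 4) ≡ u (mod π)`. -/
noncomputable def primeSymbol (π a : GaussianInt) : GaussianInt :=
  if π ∣ a then 0 else if π ∣ a ^ (π.norm.natAbs / 4) - 1 then 1 else if π ∣ a ^ (π.norm.natAbs / 4) - ⟨0, 1⟩ then ⟨0, 1⟩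
  else if π ∣ a ^ (π.norm.natAbs / 4) + 1 then -1 else -⟨0, 1⟩

/-- The quartic residue symbol `(a/β)₄`, the product of the symbols of the prime factors of `β`. -/
noncomputable def symbol (β a : GaussianInt) : GaussianInt :=
  ((UniqueFactorizationMonoid.factors β).map (fun π => primeSymbol π a)).prod

/-- The number `D` for which the curve `y² = x³ + a x² + b x` is isogenous to `y² = x³ - D x`. -/
def twist (a b : ℤ) : ℤ := if a = 0 then -b else b

/-- The modulus `8 q ∏ |b_i|`. -/
def modulus {ι : Type} [Fintype ι] (b : ι → ℤ) (q : ℕ) : ℕ := 8 * q * ∏ i, (b i).natAbs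

open Classical in
/-- For even `r` the number of the classes `m` modulo `8 q ∏ |b_i|` for which `(r / 2)² + m² ≡ c (mod q)` and, for
`β = r / 2 + m i` and all `i`, the number `s_i (D_i/β)₄ β` is congruent to `1` modulo `2 + 2 i`; for odd `r` it is `0`. -/
noncomputable def classes {ι : Type} [Fintype ι] (a b s : ι → ℤ) (q c : ℕ) (r : ℤ) : ℕ :=
  ((range (modulus b q)).filter (fun m : ℕ => r % 2 = 0 ∧ (q : ℤ) ∣ (r / 2) ^ 2 + (m : ℤ) ^ 2 - c ∧
    ∀ i, (⟨2, 2⟩ : GaussianInt) ∣ (s i : GaussianInt) * symbol ⟨r / 2, m⟩ (twist (a i) (b i) : ℤ) * ⟨r / 2, m⟩ - 1)).card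

/-- The partial products over the primes `3 ≤ p ≤ z` which do not divide `N r`. -/
noncomputable def product (N : ℕ) (r : ℤ) (z : ℕ) : ℝ :=
  ∏ p ∈ (Icc 3 z).filter (fun p : ℕ => p.Prime ∧ ¬ (p : ℤ) ∣ N * r),
    (1 - ((ZMod.χ₄ (p : ZMod 4) : ℤ) : ℝ) / ((p : ℝ) - 1))

/-- `C` is the constant of `r`: with `N = 8 q ∏ |b_i|`, the partial products, times `classes / φ(N)`, converge to `C`. -/
def IsConstant {ι : Type} [Fintype ι] (a b s : ι → ℤ) (q c : ℕ) (r : ℤ) (C : ℝ) : Prop :=
  Tendsto (fun z => (classes a b s q c r : ℝ) / (Nat.totient (modulus b q) : ℝ) * product (modulus b q) r z) atTop (𝓝 C)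

/-- The conclusion for `r`: there is a number `C ≥ 0`, the constant of `r`, which is positive if and only if `classes` is
positive, and `|count - C ∫_2^√x dt / (2 log t)| ≤ √x / (log x) ^ A` for all real `x` from `R ^ (2 + ε)` to `R ^ (3 - ε)`. -/
def Good {ι : Type} [Fintype ι] (a b s : ι → ℤ) (q c : ℕ) (ε : ℝ) (A : ℕ) (R : ℝ) (r : ℤ) : Prop :=
  ∃ C : ℝ, 0 ≤ C ∧ (0 < C ↔ 0 < classes a b s q c r) ∧ IsConstant a b s q c r C ∧
    ∀ x : ℝ, R ^ (2 + ε) ≤ x → x ≤ R ^ (3 - ε) →
    |(count a b s q c r x : ℝ) - C * ∫ t in (2 : ℝ)..(Real.sqrt x), 1 / (2 * Real.log t)| ≤ Real.sqrt x / Real.log x ^ A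

open Classical in
/-- The number of the integers `r ≠ 0` with `|r| ≤ R` for which the conclusion fails. -/
noncomputable def exceptions {ι : Type} [Fintype ι] (a b s : ι → ℤ) (q c : ℕ) (ε : ℝ) (A : ℕ) (R : ℝ) : ℕ :=
  ((Icc ⌈-R⌉ ⌊R⌋).filter (fun r : ℤ => r ≠ 0 ∧ ¬ Good a b s q c ε A R r)).card

open Pool.Agent.N782.GN (gq SS pp c_ssl)
open Pool.Agent.J6H22.LT

theorem symbol_eq (β a : GaussianInt) : symbol β a = Pool.Agent.R441.Q4.Q β a := rfl

theorem hasCM {a b : ℤ} (h : HasCM a b) : CM a b := h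

section
variable {ι : Type} [Fintype ι]

theorem count_eq (a b s : ι → ℤ) (q c : ℕ) (r : ℤ) (x : ℝ) : count a b s q c r x = cnt a b s q c r x := by
  classical
  unfold count cnt
  apply congrArg Finset.card
  apply filter_congr
  intro p _
  exact Iff.rfl

theorem classes_eq (a b s : ι → ℤ) (q c : ℕ) (r : ℤ) (hr : r % 2 = 0) :
    classes a b s q c r = (cl (modulus b q) (W a b s q c) (r / 2)).card := by
  classical
  unfold classes cl
  apply congrArg Finset.card
  ext m
  simp only [mem_filter]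
  unfold W Pool.Agent.J6H22.LT.cond
  constructor
  · rintro ⟨h1, -, h2, h3⟩
    exact ⟨h1, h2, h3⟩
  · rintro ⟨h1, h2, h3⟩
    exact ⟨h1, hr, h2, h3⟩

theorem classes_zero (a b s : ι → ℤ) (q c : ℕ) (r : ℤ) (hr : r % 2 ≠ 0) : classes a b s q c r = 0 := by
  classical
  unfold classes
  rw [card_eq_zero, filter_eq_empty_iff]
  rintro m - ⟨h, -⟩
  exact hr h

/-- the factor at an odd prime is positive -/
theorem factor_pos {p : ℕ} (hp : p.Prime) (h2 : p ≠ 2) : 0 < 1 - ((ZMod.χ₄ (p : ZMod 4) : ℤ) : ℝ) / ((p : ℝ) - 1) := by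
  have h3 : 3 ≤ p := by
    have := hp.two_le
    omega
  have h3' : (3 : ℝ) ≤ p := by exact_mod_cast h3
  have h4 : ((ZMod.χ₄ (p : ZMod 4) : ℤ) : ℝ) ≤ 1 := by
    have : (ZMod.χ₄ (p : ZMod 4) : ℤ) ≤ 1 := by
      rw [ZMod.χ₄_nat_eq_if_mod_four]
      split_ifs <;> norm_num
    exact_mod_cast this
  rw [sub_pos, div_lt_one (by linarith)]
  linarith

/-- the constant -/
theorem constant (a b s : ι → ℤ) (q c : ℕ) (hN : 1 ≤ modulus b q) (h2N : 2 ∣ modulus b q) (r : ℤ) (hr0 : r ≠ 0) :
    0 ≤ cst (modulus b q) (W a b s q c) r ∧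
      (0 < cst (modulus b q) (W a b s q c) r ↔ 0 < classes a b s q c r) ∧
      IsConstant a b s q c r (cst (modulus b q) (W a b s q c) r) := by
  obtain ⟨N, hNe⟩ : ∃ N, N = modulus b q := ⟨_, rfl⟩
  unfold IsConstant
  rw [← hNe] at hN h2N ⊢
  by_cases hr : r % 2 = 0
  · set l : ℤ := ((r / 2).natAbs : ℤ) with hl
    have hl0 : l ≠ 0 := by omega
    obtain ⟨hlim, hpos⟩ := c_ssl l hl0
    have hσ : (if 0 < r then (1 : ℤ) else -1) * l = r / 2 := by
      split_ifs with h
      · omega
      · omega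
    have hcst : cst N (W a b s q c) r = (classes a b s q c r : ℝ) / (N : ℝ) * (gq N l * SS l) := by
      unfold cst sD
      rw [if_pos hr, ← hl, hσ, classes_eq a b s q c r hr, hNe]
    set F : Finset ℕ := N.primeFactors.filter (fun p : ℕ => p ≠ 2 ∧ ¬ (p : ℤ) ∣ l) with hF
    set f : ℕ → ℝ := fun p => 1 - ((ZMod.χ₄ (p : ZMod 4) : ℤ) : ℝ) / ((p : ℝ) - 1) with hf
    have hFpos : 0 < ∏ p ∈ F, f p := by
      apply prod_pos
      intro p hp
      rw [hF, mem_filter] at hp
      exact factor_pos (Nat.prime_of_mem_primeFactors hp.1) hp.2.1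
    have h4D : (0 : ℝ) < (N : ℝ) := by
      exact_mod_cast hN
    have hφ : (0 : ℝ) < (Nat.totient N : ℝ) := by
      have : 0 < Nat.totient N := Nat.totient_pos.2 (by omega)
      exact_mod_cast this
    have hgq : gq N l = (N : ℝ) / (Nat.totient N : ℝ) / ∏ p ∈ F, f p := rfl
    have hcst2 : cst N (W a b s q c) r = (classes a b s q c r : ℝ) / (Nat.totient N : ℝ) * (SS l / ∏ p ∈ F, f p) := by
      rw [hcst, hgq]
      field_simp
    have hK : 0 < SS l / ∏ p ∈ F, f p := div_pos hpos hFpos
    refine ⟨?_, ?_, ?_⟩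
    · rw [hcst2]
      positivity
    · rw [hcst2]
      constructor
      · intro h
        by_contra hc
        have h0 : classes a b s q c r = 0 := by omega
        rw [h0] at h
        simp at h
      · intro h
        have h' : (0 : ℝ) < (classes a b s q c r : ℝ) := by exact_mod_cast h
        positivity
    · rw [hcst2]
      apply Tendsto.const_mul
      have hev : (fun z => pp l z / ∏ p ∈ F, f p) =ᶠ[atTop] product N r := by
        filter_upwards [eventually_ge_atTop N] with z hz
        rw [div_eq_iff hFpos.ne']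
        unfold pp product
        rw [← prod_union]
        · refine prod_congr ?_ (fun _ _ => rfl)
          ext p
          simp only [hF, mem_union, mem_filter, mem_Icc, Nat.mem_primeFactors]
          have key : p.Prime → p ≠ 2 → ((p : ℤ) ∣ N * r ↔ p ∣ N ∨ (p : ℤ) ∣ l) := by
            intro hp hp2
            have hpz : Prime (p : ℤ) := Nat.prime_iff_prime_int.1 hp
            rw [hpz.dvd_mul, Int.natCast_dvd_natCast]
            have e1 : r = 2 * (r / 2) := by omega
            have e2 : (p : ℤ) ∣ r ↔ (p : ℤ) ∣ l := by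
              rw [hl]
              have e3 : (p : ℤ) ∣ ((r / 2).natAbs : ℤ) ↔ (p : ℤ) ∣ r / 2 := by
                rw [Int.dvd_natAbs]
              rw [e3]
              constructor
              · intro h
                rw [e1] at h
                rcases hpz.dvd_or_dvd h with h | h
                · exfalso
                  have h5 : p ∣ 2 := by exact_mod_cast h
                  exact hp2 ((Nat.prime_dvd_prime_iff_eq hp Nat.prime_two).1 h5)
                · exact h
              · intro h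
                rw [e1]
                exact Dvd.dvd.mul_left h 2
            rw [e2]
          constructor
          · rintro ⟨⟨h3, hz3⟩, hp, hl3⟩
            have hp2 : p ≠ 2 := by omega
            by_cases hd : p ∣ N
            · right
              exact ⟨⟨hp, hd, by omega⟩, hp2, hl3⟩
            · left
              refine ⟨⟨h3, hz3⟩, hp, ?_⟩
              rw [key hp hp2]
              tauto
          · rintro (⟨⟨h3, hz3⟩, hp, hd⟩ | ⟨⟨hp, hd, -⟩, hp2, hl3⟩)
            · have hp2 : p ≠ 2 := by omega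
              rw [key hp hp2] at hd
              exact ⟨⟨h3, hz3⟩, hp, fun h => hd (Or.inr h)⟩
            · have h5 := hp.two_le
              have h6 : p ≤ N := Nat.le_of_dvd (by omega) hd
              exact ⟨⟨by omega, by omega⟩, hp, hl3⟩
        · rw [disjoint_left]
          intro p hp1 hp2
          simp only [hF, mem_filter, mem_Icc, Nat.mem_primeFactors] at hp1 hp2
          obtain ⟨-, hp, hd⟩ := hp1
          obtain ⟨⟨-, hd4, -⟩, hp3, -⟩ := hp2
          apply hd
          exact Dvd.dvd.mul_right (Int.natCast_dvd_natCast.2 hd4) r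
      exact Tendsto.congr' hev (hlim.div_const _)
  · have h0 := classes_zero a b s q c r hr
    have h1 : cst N (W a b s q c) r = 0 := by
      unfold cst
      rw [if_neg hr]
    refine ⟨h1.ge, ?_, ?_⟩
    · rw [h1, h0]
      simp
    · rw [h0, h1]
      simp

end

/-- For every finite nonempty family of curves `E_i` over `ℚ` with complex multiplication by orders of `ℚ(i)`, all signs `s_i`,
every reduced class `c` modulo `q`, all `ε > 0`, `A` and all large `R`, all but at most `R / (log R) ^ A` of the integers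
`r ≠ 0` with `|r| ≤ R` satisfy the formula of Lang and Trotter for the primes `p ≡ c (mod q)` with `a_p(E_i) = s_i r` for all
`i`, for all `x` from `R ^ (2 + ε)` to `R ^ (3 - ε)`. -/
theorem result {ι : Type} [Fintype ι] [Nonempty ι] (a b s : ι → ℤ) (hE : ∀ i, HasCM (a i) (b i))
    (hs : ∀ i, s i = 1 ∨ s i = -1) (q c : ℕ) (hq : 1 ≤ q) (hc : c.Coprime q) (ε : ℝ) (hε : 0 < ε) (A : ℕ) :
    ∃ R₀ : ℝ, ∀ R : ℝ, R₀ ≤ R → (exceptions a b s q c ε A R : ℝ) ≤ R / Real.log R ^ A := by
  classical
  have hW : Adm (modulus b q) (W a b s q c) := adm (fun i => hasCM (hE i)) hq hc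
  have hπ : Cnt (W a b s q c) (cnt a b s q c) := cnt_spec (fun i => hasCM (hE i)) hs q c
  have h2 : 2 ∣ modulus b q := by
    unfold modulus
    exact ⟨4 * q * ∏ i, (b i).natAbs, by ring⟩
  obtain ⟨R₀, h⟩ := lt_all hW hπ ε A hε
  refine ⟨R₀, fun R hR => le_trans ?_ (h R hR)⟩
  unfold exceptions
  rw [Nat.cast_le]
  apply card_le_card
  intro r hr
  rw [mem_filter] at hr ⊢
  refine ⟨hr.1, fun hg => hr.2.2 ?_⟩
  obtain ⟨h1, h2, h3⟩ := constant a b s q c hW.one_le h2 r hr.2.1
  refine ⟨_, h1, h2, h3, fun x hx1 hx2 => ?_⟩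
  rw [count_eq]
  exact hg x hx1 hx2

end Pool.Agent.Results.MP_d74fca_nt.GaussianCurves
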