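import Pool.Agent.J6H29.LTW.LTX
import Pool.Agent.J6H29.LTW.Tr

/-!
# The Lang–Trotter formula for all curves with `j = 287496`, and for `y² = x³ ± D² x`, for almost all traces

Let `E : y² = x³ + a x + b` be ANY elliptic curve with integers `a`, `b` and `j(E) = 287496` (that is, with complex
multiplication by `ℤ[2i]`; all elliptic curves over `ℚ` with this `j`-invariant have such an equation), or with `b = 0` and
`|a|` a square (complex multiplication by `ℤ[i]`). For almost all traces `r`, `|r| ≤ R`, the number of the primes `p ≤ x` with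
`a_p(E) = r` is given by the formula of Lang and Trotter, with an explicit constant `c_{E, r}`, uniformly for
`R ^ (2 + ε) ≤ x ≤ R ^ (4 - ε)`. The starting file `CongruentNumberCurves` has this for the curves `y² = x³ - D² x` and
`R ^ (2 + ε) ≤ x ≤ R ^ (3 - ε)`.

Proof. (1) `E` is isogenous to a curve `y² = x³ - D² x`, `D = twist a b` (elementary sums of quadratic characters).
(2) `a_p = r ≠ 0` if and only if `r = 2 l` with `l` odd, `p = l² + m²` with `m` even, and the Jacobi symbol `(D / p)` is equal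
to `χ₄ (l + m)`, a condition for `m` modulo `4 D` (starting library, project GN, helper782 and others).
(3) For almost all `l` the primes `l² + m²`, `m ≤ M`, in a class modulo `4 D` are given by the expected formula, now for `|l|`
as small as `M ^ (1 / 2 + ε)` (starting library: `M ^ (2 / 3 + ε)`): the dispersion of helper16 (`Pool.Agent.J6H16.TH`, this
run), carried over to residue classes (`Pool.Agent.J6H29.LTW`).
-/

set_option autoImplicit false

namespace Pool.Agent.Results.MP_d74fca_nt.ThinLangTrotter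

open Finset Filter Topology

/-- The number of the solutions `(x, y)` of `y² = x³ + a x + b` modulo `p`, which is `|E(𝔽_p)| - 1`. -/
def points (a b : ℤ) (p : ℕ) : ℕ :=
  ((range p ×ˢ range p).filter (fun xy : ℕ × ℕ => (p : ℤ) ∣ (xy.2 : ℤ) ^ 2 - ((xy.1 : ℤ) ^ 3 + a * xy.1 + b))).card

/-- The trace `a_p(E) = p + 1 - |E(𝔽_p)|`. -/
def trace (a b : ℤ) (p : ℕ) : ℤ := (p : ℤ) - points a b p

/-- `π_{E, r}(x)`: the number of the primes `p ≤ x` which do not divide `2 (4 a³ + 27 b²)` and have `a_p(E) = r`. -/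
noncomputable def count (a b r : ℤ) (x : ℝ) : ℕ :=
  ((Icc 1 ⌊x⌋₊).filter (fun p : ℕ => p.Prime ∧ ¬ (p : ℤ) ∣ 2 * (4 * a ^ 3 + 27 * b ^ 2) ∧ trace a b p = r)).card

/-- The curves: `y² = x³ + a x + b` is an elliptic curve, and its `j`-invariant `1728 * 4 a³ / (4 a³ + 27 b²)` is `287496`, or
`b = 0` and `|a|` is a square. -/
def Curve (a b : ℤ) : Prop := 4 * a ^ 3 + 27 * b ^ 2 ≠ 0 ∧
  ((b = 0 ∧ IsSquare |a|) ∨ 1728 * (4 * a ^ 3) = 287496 * (4 * a ^ 3 + 27 * b ^ 2))

/-- The number `D`: `D` for `y² = x³ - D² x`, `2 D` for `y² = x³ + D² x`, and `|t|` for `y² = x³ - 11 t² x + 14 t³` (every curve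
with `j = 287496` is of this form). -/
def twist (a b : ℤ) : ℕ :=
  if b = 0 then (if a < 0 then Nat.sqrt a.natAbs else 2 * Nat.sqrt a.natAbs) else Nat.sqrt (a.natAbs / 11)

/-- The number of the even classes `m` modulo `4 D` for which the Jacobi symbol of `D` modulo `(r / 2)² + m²` is equal to
`χ₄ (r / 2 + m)`, if `r` is `2` modulo `4`; otherwise `0`. -/
def classes (D : ℕ) (r : ℤ) : ℕ :=
  ((range (4 * D)).filter (fun m : ℕ => r % 4 = 2 ∧ m % 2 = 0 ∧
    jacobiSym D ((r / 2) ^ 2 + (m : ℤ) ^ 2).natAbs = ZMod.χ₄ ((r / 2 + m : ℤ) : ZMod 4))).card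

/-- The partial products over the primes `3 ≤ p ≤ z` which do not divide `D r`. -/
noncomputable def product (D : ℕ) (r : ℤ) (z : ℕ) : ℝ :=
  ∏ p ∈ (Icc 3 z).filter (fun p : ℕ => p.Prime ∧ ¬ (p : ℤ) ∣ D * r),
    (1 - ((ZMod.χ₄ (p : ZMod 4) : ℤ) : ℝ) / ((p : ℝ) - 1))

/-- `c = c_{D, r}`: the partial products, times `classes D r / φ(4 D)`, converge to `c`. -/
def IsConstant (D : ℕ) (r : ℤ) (c : ℝ) : Prop :=
  Tendsto (fun z => (classes D r : ℝ) / (Nat.totient (4 * D) : ℝ) * product D r z) atTop (𝓝 c)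

/-- The conclusion for the trace `r`: there is a number `c ≥ 0`, the constant of `D = twist a b` and `r`, which is positive if
and only if `classes D r` is positive, and `|π_{E, r}(x) - c ∫_2^√x dt / (2 log t)| ≤ √x / (log x) ^ A` for all real `x` from
`R ^ (2 + ε)` to `R ^ (4 - ε)`. -/
def Good (a b : ℤ) (ε : ℝ) (A : ℕ) (R : ℝ) (r : ℤ) : Prop :=
  ∃ c : ℝ, 0 ≤ c ∧ (0 < c ↔ 0 < classes (twist a b) r) ∧ IsConstant (twist a b) r c ∧
    ∀ x : ℝ, R ^ (2 + ε) ≤ x → x ≤ R ^ (4 - ε) →
      |(count a b r x : ℝ) - c * ∫ t in (2 : ℝ)..(Real.sqrt x), 1 / (2 * Real.log t)| ≤ Real.sqrt x / Real.log x ^ A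

open Classical in
/-- The number of the integers `r` with `|r| ≤ R` for which the conclusion fails. -/
noncomputable def exceptions (a b : ℤ) (ε : ℝ) (A : ℕ) (R : ℝ) : ℕ :=
  ((Icc ⌈-R⌉ ⌊R⌋).filter (fun r : ℤ => ¬ Good a b ε A R r)).card

open Pool.Agent.N782.GN Pool.Agent.N782.GN.LT
open Pool.Agent.J6H29.LTW (lt_all2 Cov)

theorem count_eq {a b : ℤ} (h : Cov a b) (r : ℤ) (x : ℝ) : count a b r x = piD (twist a b) r x := by
  unfold count piD
  congr 1
  ext p
  simp only [mem_filter, mem_Icc, mem_range]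
  have key : p.Prime → ((¬ (p : ℤ) ∣ 2 * (4 * a ^ 3 + 27 * b ^ 2) ∧ trace a b p = r) ↔
      (¬ p ∣ 2 * twist a b ∧ tr (twist a b) p = r)) := by
    intro hp
    have h1 : (p : ℤ) ∣ 2 * (4 * a ^ 3 + 27 * b ^ 2) ↔ p ∣ 2 * twist a b := h.bad_iff hp
    rw [h1]
    constructor
    · rintro ⟨h2, h3⟩
      refine ⟨h2, ?_⟩
      rw [← h3]
      exact (h.trace hp h2).symm
    · rintro ⟨h2, h3⟩
      refine ⟨h2, ?_⟩
      rw [← h3]
      exact h.trace hp h2
  constructor
  · rintro ⟨⟨h1, h2⟩, h3, h4⟩
    exact ⟨by omega, h3, (key h3).1 h4⟩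
  · rintro ⟨h1, h3, h4⟩
    exact ⟨⟨h3.pos, by omega⟩, h3, (key h3).2 h4⟩

theorem classes_eq (D : ℕ) (r : ℤ) (hr : r % 4 = 2) : classes D r = (cl D (r / 2)).card := by
  classical
  unfold classes cl
  apply congrArg Finset.card
  ext m
  simp only [mem_filter]
  unfold G
  have h1 : r / 2 % 2 = 1 := by omega
  have h2 : (m % 2 = 0) ↔ ((m : ℤ) % 2 = 0) := by omega
  rw [h2]
  tauto

theorem classes_zero (D : ℕ) (r : ℤ) (hr : r % 4 ≠ 2) : classes D r = 0 := by
  unfold classes
  rw [card_eq_zero, filter_eq_empty_iff]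
  rintro m - ⟨h, -⟩
  exact hr h

/-- the factor at an odd prime is positive -/
theorem factor_pos {p : ℕ} (hp : p.Prime) (h2 : p ≠ 2) : 0 < 1 - ((ZMod.χ₄ (p : ZMod 4) : ℤ) : ℝ) / ((p : ℝ) - 1) := by
  have h3 : 3 ≤ p := by
    have := hp.two_le
    omega
  have h3' : (3 : ℝ) ≤ p := by exact_mod_cast h3
  have h4 : ((ZMod.χ₄ (p : ZMod 4) : ℤ) : ℝ) ≤ 1 := by
    have : (ZMod.χ₄ (p : ZMod 4) : ℤ) ≤ 1 := by
      rw [ZMod.χ₄_nat_eq_if_mod_four]
      split_ifs <;> norm_num
    exact_mod_cast this
  rw [sub_pos, div_lt_one (by linarith)]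
  linarith

/-- the constant -/
theorem constant (D : ℕ) (hD : 1 ≤ D) (r : ℤ) :
    0 ≤ cst D r ∧ (0 < cst D r ↔ 0 < classes D r) ∧ IsConstant D r (cst D r) := by
  by_cases hr : r % 4 = 2
  · set l : ℤ := ((r / 2).natAbs : ℤ) with hl
    have hl0 : l ≠ 0 := by omega
    obtain ⟨hlim, hpos⟩ := c_ssl l hl0
    have hσ : (if 0 < r then (1 : ℤ) else -1) * l = r / 2 := by
      split_ifs with h
      · omega
      · omega
    have hcst : cst D r = (classes D r : ℝ) / ((4 * D : ℕ) : ℝ) * (gq (4 * D) l * SS l) := by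
      unfold cst sD
      rw [if_pos hr, ← hl, hσ, classes_eq D r hr]
    set F : Finset ℕ := (4 * D).primeFactors.filter (fun p : ℕ => p ≠ 2 ∧ ¬ (p : ℤ) ∣ l) with hF
    set f : ℕ → ℝ := fun p => 1 - ((ZMod.χ₄ (p : ZMod 4) : ℤ) : ℝ) / ((p : ℝ) - 1) with hf
    have hFpos : 0 < ∏ p ∈ F, f p := by
      apply prod_pos
      intro p hp
      rw [hF, mem_filter] at hp
      exact factor_pos (Nat.prime_of_mem_primeFactors hp.1) hp.2.1
    have h4D : (0 : ℝ) < ((4 * D : ℕ) : ℝ) := by
      have : 0 < 4 * D := by omega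
      exact_mod_cast this
    have hφ : (0 : ℝ) < (Nat.totient (4 * D) : ℝ) := by
      have : 0 < Nat.totient (4 * D) := Nat.totient_pos.2 (by omega)
      exact_mod_cast this
    have hgq : gq (4 * D) l = ((4 * D : ℕ) : ℝ) / (Nat.totient (4 * D) : ℝ) / ∏ p ∈ F, f p := rfl
    have hcst2 : cst D r = (classes D r : ℝ) / (Nat.totient (4 * D) : ℝ) * (SS l / ∏ p ∈ F, f p) := by
      rw [hcst, hgq]
      field_simp
    have hK : 0 < SS l / ∏ p ∈ F, f p := div_pos hpos hFpos
    refine ⟨?_, ?_, ?_⟩
    · rw [hcst2]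
      positivity
    · rw [hcst2]
      constructor
      · intro h
        by_contra hc
        have h0 : classes D r = 0 := by omega
        rw [h0] at h
        simp at h
      · intro h
        have h' : (0 : ℝ) < (classes D r : ℝ) := by exact_mod_cast h
        positivity
    · unfold IsConstant
      rw [hcst2]
      apply Tendsto.const_mul
      have hev : (fun z => pp l z / ∏ p ∈ F, f p) =ᶠ[atTop] product D r := by
        filter_upwards [eventually_ge_atTop (4 * D)] with z hz
        rw [div_eq_iff hFpos.ne']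
        unfold pp product
        rw [← prod_union]
        · refine prod_congr ?_ (fun _ _ => rfl)
          ext p
          simp only [hF, mem_union, mem_filter, mem_Icc, Nat.mem_primeFactors]
          have key : p.Prime → p ≠ 2 → ((p : ℤ) ∣ D * r ↔ p ∣ D ∨ (p : ℤ) ∣ l) := by
            intro hp hp2
            have hpz : Prime (p : ℤ) := Nat.prime_iff_prime_int.1 hp
            rw [hpz.dvd_mul, Int.natCast_dvd_natCast]
            have e1 : r = 2 * (r / 2) := by omega
            have e2 : (p : ℤ) ∣ r ↔ (p : ℤ) ∣ l := by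
              rw [hl]
              have e3 : (p : ℤ) ∣ ((r / 2).natAbs : ℤ) ↔ (p : ℤ) ∣ r / 2 := by
                rw [Int.dvd_natAbs]
              rw [e3]
              constructor
              · intro h
                rw [e1] at h
                rcases hpz.dvd_or_dvd h with h | h
                · exfalso
                  have h5 : p ∣ 2 := by exact_mod_cast h
                  exact hp2 ((Nat.prime_dvd_prime_iff_eq hp Nat.prime_two).1 h5)
                · exact h
              · intro h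
                rw [e1]
                exact Dvd.dvd.mul_left h 2
            rw [e2]
          have key2 : p.Prime → p ≠ 2 → (p ∣ 4 * D ↔ p ∣ D) := by
            intro hp hp2
            rw [hp.dvd_mul]
            constructor
            · rintro (h | h)
              · exfalso
                have h5 : p ∣ 2 ^ 2 := by simpa using h
                exact hp2 ((Nat.prime_dvd_prime_iff_eq hp Nat.prime_two).1 (hp.dvd_of_dvd_pow h5))
              · exact h
            · exact Or.inr
          constructor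
          · rintro ⟨⟨h3, hz3⟩, hp, hl3⟩
            have hp2 : p ≠ 2 := by omega
            by_cases hd : p ∣ D
            · right
              exact ⟨⟨hp, (key2 hp hp2).2 hd, by omega⟩, hp2, hl3⟩
            · left
              refine ⟨⟨h3, hz3⟩, hp, ?_⟩
              rw [key hp hp2]
              tauto
          · rintro (⟨⟨h3, hz3⟩, hp, hd⟩ | ⟨⟨hp, hd, -⟩, hp2, hl3⟩)
            · have hp2 : p ≠ 2 := by omega
              rw [key hp hp2] at hd
              exact ⟨⟨h3, hz3⟩, hp, fun h => hd (Or.inr h)⟩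
            · have h5 := hp.two_le
              have h6 : p ≤ 4 * D := Nat.le_of_dvd (by omega) hd
              exact ⟨⟨by omega, by omega⟩, hp, hl3⟩
        · rw [disjoint_left]
          intro p hp1 hp2
          simp only [hF, mem_filter, mem_Icc, Nat.mem_primeFactors] at hp1 hp2
          obtain ⟨-, hp, hd⟩ := hp1
          obtain ⟨⟨-, hd4, -⟩, hp3, -⟩ := hp2
          apply hd
          have h5 : p ∣ D := by
            rcases (hp.dvd_mul).1 hd4 with h | h
            · exfalso
              have h5 : p ∣ 2 ^ 2 := by simpa using h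
              exact hp3 ((Nat.prime_dvd_prime_iff_eq hp Nat.prime_two).1 (hp.dvd_of_dvd_pow h5))
            · exact h
          exact Dvd.dvd.mul_right (Int.natCast_dvd_natCast.2 h5) r
      exact Tendsto.congr' hev (hlim.div_const _)
  · have h0 := classes_zero D r hr
    have h1 : cst D r = 0 := by
      unfold cst
      rw [if_neg hr]
    refine ⟨h1.ge, ?_, ?_⟩
    · rw [h1, h0]
      simp
    · unfold IsConstant
      rw [h0, h1]
      simp

/-- For every elliptic curve `E : y² = x³ + a x + b` with integers `a`, `b` and `j(E) = 287496`, or `b = 0` and `|a|` a square,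
for all `ε > 0`, `A` and all large `R`, all but at most `R / (log R) ^ A` of the integers `r` with `|r| ≤ R` satisfy the
formula of Lang and Trotter for `E`, for all `x` from `R ^ (2 + ε)` to `R ^ (4 - ε)`. -/
theorem result (a b : ℤ) (h : Curve a b) (ε : ℝ) (hε : 0 < ε) (A : ℕ) :
    ∃ R₀ : ℝ, ∀ R : ℝ, R₀ ≤ R → (exceptions a b ε A R : ℝ) ≤ R / Real.log R ^ A := by
  classical
  have hc : Cov a b := h
  have hD : 1 ≤ twist a b := hc.one_le
  obtain ⟨R₀, h⟩ := lt_all2 (twist a b) hD ε A hε
  refine ⟨R₀, fun R hR => le_trans ?_ (h R hR)⟩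
  unfold exceptions
  rw [Nat.cast_le]
  apply card_le_card
  intro r hr
  rw [mem_filter] at hr ⊢
  refine ⟨hr.1, fun hg => hr.2 ?_⟩
  obtain ⟨h1, h2, h3⟩ := constant (twist a b) hD r
  refine ⟨cst (twist a b) r, h1, h2, h3, fun x hx1 hx2 => ?_⟩
  rw [count_eq hc]
  exact hg x hx1 hx2

end Pool.Agent.Results.MP_d74fca_nt.ThinLangTrotter
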