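import Pool.Agent.J6H45.WF.Dyad

/-!
# Primes with a given trace of Frobenius for all quadratic twists by integers near almost all orbits of Euler's function

Let `E : y² = x³ + A x + B` and let `E_D : y² = x³ + A D² x + B D³` be its quadratic twist by `D ≠ 0`. The number of the primes
`p ≤ x` with trace `t ≠ 0` for `E_D` should be about one half of the number `n` of the primes `p ≤ x` with trace `t` or `-t` for
`E`. `TwistLaw C c ε A B D` says that this is true for ALL `x` with `(log |D|) ^ C ≤ x ≤ |D| ^ c` and ALL `t ≠ 0`, with an error at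
most `√n x ^ ε`. By the starting theorem `TraceSigns` this holds for all `D`, `|D| ≤ N`, but `N ^ (1 - c)`.

Let `φ_l` be the `l`-th iterate of Euler's function `φ` (`φ_0(m) = m`) and `g` a multiplicative function of the class `LM`, for
example the identity, `φ` or the sum of the divisors. The values `g(φ_l(m))`, `l ≥ 1`, form a thin set and are taken with very large
multiplicities, so that a statement about almost all `D` says nothing about them. We prove: for every `ε > 0` there are `C` and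
`c` in `(0, 1)` such that for all `G` with `G (v + 1) - G (v) ≥ a > 0` and `G (v) ≤ K v ^ d` (for example `G (v) = v`, `d = 1`), all
`κ ≥ 0` with `d (1 - c) + κ < 1`, all `L` and `δ > 0`, for all large `N` and ALL integers `A`, `B`: for all `m ≤ N` but at most
`δ N`, for all `l ≤ L`, with `v = g(φ_l(m))`, ALL integers `D ≠ 0` with `| |D| - G (v) | ≤ v ^ κ` satisfy the `TwistLaw`.

Proof. The starting theorem is dyadic in `|D|`; it gives a set of exceptional `|D|` with `O (X ^ (1 - c))` elements up to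
`X`, uniformly in `A` and `B` (`Pool.Agent.J6H45.WF.sparse_twists`). The preimages of such sets, and of windows around their
elements, under `g ∘ φ_l` have density zero, uniformly in the set (`Pool.Agent.J6H45.WF.orbit`, from helper760's lemma
`Pool.Agent.N760.IT.densW`).
-/

set_option autoImplicit false

namespace Pool.Agent.Results.MP_d74fca_nt.TwistsNearOrbits

open Pool.Agent.N733.TG (LM Expanding lm_totient lm_sigma expanding_pow)
open Pool.Agent.N760.IT (orb lm_id)
open Pool.Agent.J6H45.WF (TwistLaw)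

/-- **Primes with a given trace for the quadratic twists near the orbits of Euler's function.** (1) For every `ε > 0` there
are `C > 0` and `0 < c < 1` such that for all multiplicative functions `g` of the class `LM`, all `G` which are expanding of
order `d`, all `κ ≥ 0` with `d (1 - c) + κ < 1`, all `L`, `δ > 0` and all large `N`, for all integers `A`, `B`: for all `m ≤ N` but
`δ N`, all `l ≤ L`, with `v = g(φ_l(m))` (`orb g l m`), all integers `D ≠ 0` with `| |D| - G v | ≤ v ^ κ` satisfy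
`TwistLaw C c ε A B D`: for all `x` with `(log |D|) ^ C ≤ x ≤ |D| ^ c` and all `t ≠ 0` the number of the primes up to `x` with trace
`t` for the twist by `D` of `y² = x³ + A x + B` is the mean of the numbers of the primes with traces `t` and `-t` for the curve
itself, with an error at most `√n x ^ ε`, `n` being the sum of these two numbers. (2) The identity, Euler's function and the
sum of the divisors are in the class `LM`, and `α v ^ d` (`α > 0`, `d ≥ 1`) is expanding of order `d`. -/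
theorem result :
    (∀ ε : ℝ, 0 < ε → ∃ C c : ℝ, 0 < C ∧ 0 < c ∧ c < 1 ∧ ∀ g : ℕ → ℕ, LM g → ∀ (G : ℕ → ℝ) (d : ℝ), Expanding G d →
      ∀ κ : ℝ, 0 ≤ κ → d * (1 - c) + κ < 1 → ∀ (L : ℕ) (δ : ℝ), 0 < δ → ∃ N₀ : ℕ, ∀ N : ℕ, N₀ ≤ N → ∀ A B : ℤ,
        ({m : ℕ | 1 ≤ m ∧ m ≤ N ∧ ¬ ∀ l ≤ L, ∀ D : ℤ, D ≠ 0 →
          |(|(D : ℝ)|) - G (orb g l m)| ≤ (orb g l m : ℝ) ^ κ → TwistLaw C c ε A B D}.ncard : ℝ) ≤ δ * N) ∧
    (LM (fun m => m) ∧ LM Nat.totient ∧ LM (fun m => ∑ d ∈ m.divisors, d)) ∧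
    (∀ α d : ℝ, 0 < α → 1 ≤ d → Expanding (fun v : ℕ => α * (v : ℝ) ^ d) d) := by
  refine ⟨fun ε hε => ?_, ⟨lm_id, lm_totient, lm_sigma⟩, fun α d hα hd => expanding_pow hα hd⟩
  obtain ⟨C, c, K, hC, hc, hc1, H⟩ := Pool.Agent.J6H45.WF.sparse_twists ε hε
  refine ⟨C, c, hC, hc, hc1, fun g hg G d hG κ hκ h1 L δ hδ => ?_⟩
  obtain ⟨N₀, hN₀⟩ := Pool.Agent.J6H45.WF.orbit hg hG (s := 1 - c) (κ := κ) (by linarith) hκ h1 K L δ hδ
  refine ⟨N₀, fun N hN A B => le_trans ?_ (hN₀ N hN _ (H A B))⟩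
  have hfin : {m : ℕ | 1 ≤ m ∧ m ≤ N ∧ ¬ ∀ k ≤ L, Pool.Agent.J6H45.WF.NearV G κ
      (fun n => ∀ D : ℤ, D.natAbs = n → TwistLaw C c ε A B D) (orb g k m)}.Finite :=
    (Set.finite_Icc 1 N).subset fun m hm => ⟨hm.1, hm.2.1⟩
  have hsub : {m : ℕ | 1 ≤ m ∧ m ≤ N ∧ ¬ ∀ l ≤ L, ∀ D : ℤ, D ≠ 0 →
      |(|(D : ℝ)|) - G (orb g l m)| ≤ (orb g l m : ℝ) ^ κ → TwistLaw C c ε A B D} ⊆
      {m : ℕ | 1 ≤ m ∧ m ≤ N ∧ ¬ ∀ k ≤ L, Pool.Agent.J6H45.WF.NearV G κ
      (fun n => ∀ D : ℤ, D.natAbs = n → TwistLaw C c ε A B D) (orb g k m)} := by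
    rintro m ⟨hm1, hmN, hm⟩
    refine ⟨hm1, hmN, fun h => hm fun l hl D hD hw => ?_⟩
    have hD1 : 1 ≤ D.natAbs := Nat.one_le_iff_ne_zero.2 (Int.natAbs_ne_zero.2 hD)
    refine h l hl D.natAbs hD1 ?_ D rfl
    rwa [Nat.cast_natAbs, Int.cast_abs]
  exact_mod_cast Set.ncard_le_ncard hsub hfin

end Pool.Agent.Results.MP_d74fca_nt.TwistsNearOrbits
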